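import Mathlib
import Pool.Agent.H.MP_40f8bf_an.Cat

set_option autoImplicit false
open MeasureTheory Set Filter Topology

namespace Pool.Agent.Results.MP_40f8bf_an.Dissip

/-- the 3-torus -/
abbrev T3 := (UnitAddCircle × UnitAddCircle) × UnitAddCircle

/-- its universal cover and tangent space -/
abbrev R3 := (ℝ × ℝ) × ℝ

/-- the covering map -/
def proj (z : R3) : T3 :=
  (((z.1.1 : UnitAddCircle), (z.1.2 : UnitAddCircle)), (z.2 : UnitAddCircle))

/-- `γ` on `(0,1)` is a local unstable curve: an embedded `C¹` arc whose points have backward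
orbits `Γ t` that are uniformly exponentially asymptotic -/
def IsUnstable (f : T3 → T3) (Γ : ℝ → ℕ → T3) (γ : ℝ → R3) : Prop :=
  ContDiff ℝ 1 γ ∧ (∀ t, deriv γ t ≠ 0) ∧ InjOn (proj ∘ γ) (Ioo 0 1) ∧
    (∀ t, Γ t 0 = proj (γ t)) ∧ (∀ t n, f (Γ t (n + 1)) = Γ t n) ∧
    ∃ C l : ℝ, 0 < l ∧ l < 1 ∧ ∀ s ∈ Ioo (0 : ℝ) 1, ∀ t ∈ Ioo (0 : ℝ) 1, ∀ n,
      dist (Γ s n) (Γ t n) ≤ C * l ^ n

/-- the conditional measures `κ ω` of `μ` for a measurable partition `ζ` are absolutely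
continuous for arc length on local unstable curves inside the atoms -/
def IsSRB (f : T3 → T3) (μ : Measure T3) : Prop :=
  ∃ (ζ : T3 → ℝ) (κ : ProbabilityTheory.Kernel ℝ T3),
    Measurable ζ ∧ ProbabilityTheory.IsMarkovKernel κ ∧ μ = (μ.map ζ).bind κ ∧
    ∀ᵐ ω ∂μ.map ζ, ∃ Γ γ, IsUnstable f Γ γ ∧ (∀ t ∈ Ioo (0 : ℝ) 1, ζ (proj (γ t)) = ω) ∧
      κ ω ≪ ((volume.restrict (Ioo 0 1)).withDensity fun t => ‖deriv γ t‖ₑ).map (proj ∘ γ)

open H.Cat in
theorem result : ∃ (f : T3 → T3) (F : R3 → R3) (U Λ : Set T3) (e₀ e₁ e₂ : T3 → R3)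
    (Es Ecu : T3 → Submodule ℝ R3) (μ : Measure T3),
    ContDiff ℝ (⊤ : ℕ∞) F ∧ (∀ z, f (proj z) = proj (F z)) ∧ Function.Bijective f ∧
    (∀ z, Function.Bijective (fderiv ℝ F z)) ∧
    (∀ ν : Measure T3, IsFiniteMeasure ν → volume ≪ ν → ¬ MeasurePreserving f ν ν) ∧
    IsOpen U ∧ f '' closure U ⊆ U ∧ Λ = ⋂ n, f^[n] '' closure U ∧ IsCompact Λ ∧ f '' Λ = Λ ∧
    Continuous e₀ ∧ Continuous e₁ ∧ Continuous e₂ ∧
    (∀ p, LinearIndependent ℝ ![e₀ p, e₁ p, e₂ p] ∧ Es p = Submodule.span ℝ {e₀ p} ∧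
      Ecu p = Submodule.span ℝ {e₁ p, e₂ p}) ∧
    (∀ z, (Es (proj z)).map (fderiv ℝ F z).toLinearMap = Es (proj (F z)) ∧
      (Ecu (proj z)).map (fderiv ℝ F z).toLinearMap = Ecu (proj (F z))) ∧
    (∃ C l : ℝ, 0 < l ∧ l < 1 ∧ ∀ z n, ∀ v ∈ Es (proj z), ∀ w ∈ Ecu (proj z), ‖v‖ = 1 → ‖w‖ = 1 →
      ‖fderiv ℝ F^[n] z v‖ ≤ C * l ^ n ∧
        ‖fderiv ℝ F^[n] z v‖ ≤ C * l ^ n * ‖fderiv ℝ F^[n] z w‖) ∧
    IsProbabilityMeasure μ ∧ Ergodic f μ ∧ μ.support ⊆ Λ ∧ IsSRB f μ ∧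
    (∃ a b : ℝ, a < 0 ∧ 0 < b ∧ ∀ᵐ p ∂μ, ∀ z, proj z = p → ∃ v ∈ Ecu p, ∃ w ∈ Ecu p,
      Tendsto (fun n : ℕ => (1 / (n : ℝ)) * Real.log ‖fderiv ℝ F^[n] z v‖) atTop (𝓝 a) ∧
      Tendsto (fun n : ℕ => (1 / (n : ℝ)) * Real.log ‖fderiv ℝ F^[n] z w‖) atTop (𝓝 b)) ∧
    ¬ ∃ C l : ℝ, 0 < l ∧ l < 1 ∧ ∀ z, proj z ∈ μ.support → ∃ v ∈ Ecu (proj z), ∃ w ∈ Ecu (proj z),
      ‖v‖ = 1 ∧ ‖w‖ = 1 ∧ ∀ n, ‖fderiv ℝ F^[n] z v‖ ≤ C * l ^ n * ‖fderiv ℝ F^[n] z w‖ := by
  obtain ⟨s, hs⟩ := ex_s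
  have a1 := α_lo
  have a2 := α_hi
  let W : Submodule ℝ R3 := Submodule.span ℝ {((1, α), 0), (0, 1)}
  have hW : ∀ w, w ∈ W ↔ ∃ t y, w = ((t, α * t), y) := fun w => by
    rw [Submodule.mem_span_pair]
    refine exists_congr fun t => exists_congr fun y => ?_
    rw [eq_comm]
    refine Eq.congr_right ?_
    ext <;> simp [mul_comm]
  have hU : f '' closure U ⊆ U := by
    rintro _ ⟨p, hp, rfl⟩
    exact trap (clU hp)
  have hK : ∀ n, IsCompact (f^[n] '' closure U) := fun n =>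
    isClosed_closure.isCompact.image (f_c.iterate n)
  have hΛ : IsClosed (⋂ n, f^[n] '' closure U) := isClosed_iInter fun n => (hK n).isClosed
  refine ⟨f, F, U, _, fun p => ((1, -(1 + α)), s p), fun _ => ((1, α), 0), fun _ => (0, 1),
    fun p => Submodule.span ℝ {((1, -(1 + α)), s p)}, fun _ => W, μ, F_sm, f_pr, f_bij, dF_bij,
    fun ν _ h => dissip ν h, U_open, hU, rfl, hΛ.isCompact, ?_, by fun_prop, continuous_const,
    continuous_const, fun p => ⟨?_, rfl, rfl⟩, fun z => ⟨?_, ?_⟩, ?_,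
    Measure.isProbabilityMeasure_map measurable_prodMk_right.aemeasurable, erg, ?_,
    ⟨ζ, κ, ζ_meas, inferInstance, μ_bind, ?_⟩, ?_, ?_⟩
  · rw [image_iInter f_bij]
    simp only [← image_comp, ← Function.iterate_succ']
    refine Subset.antisymm (subset_iInter fun n => (iInter_subset _ n).trans ?_)
      (subset_iInter fun n => iInter_subset _ (n + 1))
    rw [Function.iterate_succ, image_comp]
    exact image_mono (hU.trans subset_closure)
  · rw [Fintype.linearIndependent_iff]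
    intro c hc
    simp only [Fin.sum_univ_three, Matrix.cons_val_zero, Matrix.cons_val_one, Matrix.cons_val,
      Prod.ext_iff] at hc
    simp at hc
    obtain ⟨⟨h1, h2⟩, h3⟩ := hc
    have h4 : c 0 = 0 := by
      have : c 0 * (1 + 2 * α) = 0 := by linear_combination α * h1 - h2
      exact (mul_eq_zero.1 this).resolve_right (by linarith)
    intro i
    fin_cases i
    · exact h4
    · simpa [h4] using h1
    · simpa [h4] using h3
  · have := stable hs 1 z
    simp only [Function.iterate_one, pow_one] at this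
    rw [Submodule.map_span, image_singleton]
    erw [this]
    exact Submodule.span_singleton_smul_eq (by simp; linarith) _
  · refine Submodule.eq_of_le_of_finrank_eq ?_
      (Submodule.equivMapOfInjective _ (dF_bij z).1 W).finrank_eq.symm
    rintro _ ⟨w, hw, rfl⟩
    obtain ⟨t, y, rfl⟩ := (hW w).1 hw
    exact (hW _).2 ⟨_, _, by rw [ContinuousLinearMap.coe_coe, dF, A_u]⟩
  · obtain ⟨L, hL, hcu⟩ := cu
    obtain ⟨B, hB⟩ := isCompact_univ.exists_bound_of_continuousOn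
      (f := fun p : T3 => ((((1, -(1 + α)), s p)) : R3)) (by fun_prop)
    have B0 : 0 ≤ B := (norm_nonneg _).trans (hB 0 trivial)
    refine ⟨B * (1 + L), (1 - α) / (9 / 20), div_pos (by linarith) (by norm_num),
      by rw [div_lt_one (by norm_num)]; linarith, fun z n v hv w hw n1 n2 => ?_⟩
    obtain ⟨r, rfl⟩ := Submodule.mem_span_singleton.1 hv
    obtain ⟨t, y, rfl⟩ := (hW w).1 hw
    obtain ⟨y', h1, h2⟩ := hcu n z t y
    have p0 : 0 < (1 - α) ^ n := pow_pos (by linarith) n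
    have hr : |r| ≤ 1 := by
      have : |r| ≤ ‖r • ((((1, -(1 + α)), s (proj z))) : R3)‖ := by
        simpa using (norm_fst_le _).trans (norm_fst_le (r • ((((1, -(1 + α)), s (proj z))) : R3)))
      rwa [n1] at this
    have h3 : ‖fderiv ℝ F^[n] z (r • ((1, -(1 + α)), s (proj z)))‖ ≤ B * (1 - α) ^ n := by
      rw [map_smul]
      erw [stable hs]
      rw [norm_smul, norm_smul, Real.norm_eq_abs, Real.norm_eq_abs, abs_of_pos p0, mul_comm B]
      exact (mul_le_of_le_one_left (by positivity) hr).trans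
        (mul_le_mul_of_nonneg_left (hB _ trivial) p0.le)
    have q0 : (0 : ℝ) < (9 / 20) ^ n := by positivity
    have q1 : (9 / 20 : ℝ) ^ n ≤ 1 := pow_le_one₀ (by norm_num) (by norm_num)
    have h4 : (1 - α) ^ n = ((1 - α) / (9 / 20)) ^ n * (9 / 20) ^ n := by
      rw [div_pow, div_mul_cancel₀ _ q0.ne']
    have l0 : 0 < ((1 - α) / (9 / 20)) ^ n := pow_pos (div_pos (by linarith) (by norm_num)) n
    rw [h1, n_cu]
    rw [n_cu] at n2
    have h5 : (9 / 20 : ℝ) ^ n ≤ (1 + L) * max |(2 + α) ^ n * t| |y'| := by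
      have b1 := le_max_left |(2 + α) ^ n * t| |y'|
      have b2 := le_max_right |(2 + α) ^ n * t| |y'|
      have b3 : 1 ≤ |y| + L * |t| := by
        have := abs_nonneg y
        have := abs_nonneg t
        rcases max_cases |t| |y| with h | h <;> nlinarith
      nlinarith
    rw [h4, ← mul_assoc] at h3
    have b4 : 0 ≤ B * ((1 - α) / (9 / 20)) ^ n := by positivity
    constructor
    · nlinarith [mul_le_mul_of_nonneg_left q1 b4, mul_nonneg b4 (show 0 ≤ L by linarith)]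
    · nlinarith [mul_le_mul_of_nonneg_left h5 b4]
  · refine Measure.support_subset_of_isClosed hΛ ?_
    refine (measurableEmbedding_prod_mk_right (0 : H.Flex.T)).ae_map_iff.2
      (Eventually.of_forall fun x => mem_iInter.2 fun n => ?_)
    obtain ⟨x', rfl⟩ := cat_surj.iterate n x
    refine ⟨(x', 0), subset_closure (by simp [U]), ?_⟩
    induction n with
    | zero => rfl
    | succ n ih => rw [Function.iterate_succ_apply', Function.iterate_succ_apply', ih, f_z]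
  · rw [μ_ζ]
    filter_upwards [ae_restrict_mem measurableSet_Ico] with ω hω
    have hd : ∀ t, deriv (γ ω) t = ((1, α * 1), 0) := fun t =>
      (((hasDerivAt_id' t).prodMk (((hasDerivAt_id' t).const_mul α).const_add ω)).prodMk
        (hasDerivAt_const t 0)).deriv
    refine ⟨Γ ω, γ ω, ⟨by unfold γ; fun_prop, fun t => by simp [hd], fun s hs t ht h => ?_,
      fun t => ?_, Γ_orb ω, 1, 1 - α, by linarith, by linarith, fun s hs t ht n => ?_⟩,
      fun t ht => ζ_γ hω (Ioo_subset_Ico_self ht), ?_⟩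
    · have := congrArg (fun z => H.Flex.rep z.1.1) h
      simpa only [Function.comp, proj, γ, H.Flex.rep_id (Ioo_subset_Ico_self hs),
        H.Flex.rep_id (Ioo_subset_Ico_self ht)] using this
    · simp [Γ, γ, pr, proj, H.Flex.π]
    · refine (Γ_dist _ _ _ _).trans (mul_le_mul_of_nonneg_right ?_ (pow_pos (by linarith) n).le)
      rw [abs_le]; constructor <;> linarith [hs.1, hs.2, ht.1, ht.2]
    · have : ∀ t, ‖deriv (γ ω) t‖ₑ = 1 := fun t => by
        rw [hd, ← ofReal_norm_eq_enorm, n_cu]; simp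
      simp only [this]
      rw [show (fun _ : ℝ => (1 : ENNReal)) = 1 from rfl, withDensity_one,
        restrict_Ioo_eq_restrict_Ico]
      exact Measure.AbsolutelyContinuous.rfl
  · obtain ⟨a0, h0, h1⟩ := lyap
    refine ⟨a0, _, h0, Real.log_pos (by linarith : 1 < 2 + α), ?_⟩
    filter_upwards [h1] with p hp z hz
    exact ⟨_, (hW _).2 ⟨0, 1, by simp [Prod.mk_zero_zero]⟩, _, (hW _).2 ⟨1, 0, by simp⟩, hp z hz⟩
  · rintro ⟨C, l, l0, l1, h⟩
    have h0 : proj (0, ((0 : ℤ) : ℝ)) ∈ μ.support := by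
      rw [Measure.mem_support_iff_forall]
      intro N hN
      obtain ⟨V, hV, ho, h1⟩ := mem_nhds_iff.1 hN
      refine lt_of_lt_of_le ?_ (measure_mono hV)
      rw [μ, Measure.map_apply measurable_prodMk_right ho.measurableSet]
      exact (ho.preimage (Continuous.prodMk_left 0)).measure_pos _ ⟨(0, 0), by simpa [proj] using h1⟩
    obtain ⟨v, hv, w, hw, n1, n2, h1⟩ := h _ h0
    have h5 : ∀ j, A^[j] 0 = 0 := fun j => Function.iterate_fixed (by simp [A]) j
    have h6 : 1 + a 0 = 2 + α := by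
      have := c_z 0
      rw [Int.cast_zero] at this
      simp [a, k, this]; ring
    have h4 : ∀ n, ∀ v ∈ W, ‖v‖ = 1 →
        ‖fderiv ℝ F^[n] (0, ((0 : ℤ) : ℝ)) v‖ = (2 + α) ^ n := fun n v hv nv => by
      obtain ⟨t, y, rfl⟩ := (hW v).1 hv
      rw [n_cu] at nv
      rw [(vert n 0 0 _ _).2, Au_n, n_cu]
      simp only [h5, h6, Finset.prod_const, Finset.card_range, abs_mul]
      rw [← mul_max_of_nonneg _ _ (abs_nonneg _), nv, mul_one, abs_of_pos (by positivity)]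
    have h2 : ∀ n : ℕ, 1 ≤ C * l ^ n := by
      intro n
      have h3 := h1 n
      rw [h4 n v hv n1, h4 n w hw n2] at h3
      exact le_of_mul_le_mul_right (by linarith) (show (0 : ℝ) < (2 + α) ^ n by positivity)
    have h5 := ge_of_tendsto' ((tendsto_pow_atTop_nhds_zero_of_lt_one l0.le l1).const_mul C) h2
    norm_num at h5

end Pool.Agent.Results.MP_40f8bf_an.Dissip
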